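import Mathlib

set_option autoImplicit false

open Finset Filter

open scoped Classical

namespace Pool.Agent.Q19.Sparse

/-- number of elements of `E` in `[a, b)` -/
noncomputable def cnt (E : Set ℕ) (a b : ℕ) : ℕ := ((Finset.Ico a b).filter (· ∈ E)).card

/-- uniform density zero -/
def UZ (E : Set ℕ) : Prop := ∀ η : ℝ, 0 < η → ∃ W₀ : ℕ, ∀ W, W₀ ≤ W → ∀ M, (cnt E M (M + W) : ℝ) ≤ η * W

/-- elements of `E` with another element of `E` at distance in `[m, m + L)` -/
def Bad (E : Set ℕ) (L m : ℕ) : Set ℕ := {x | x ∈ E ∧ ∃ d, m ≤ d ∧ d < m + L ∧ x + d ∈ E}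

theorem cnt_mono_set {E F : Set ℕ} (h : E ⊆ F) (a b : ℕ) : cnt E a b ≤ cnt F a b :=
  Finset.card_le_card (Finset.monotone_filter_right _ (fun _ _ hx => h hx))

/-- the averaging inequality -/
theorem sum_bad (E : Set ℕ) (L H N : ℕ) :
    ∑ m ∈ Finset.Ico 1 (H + 1), cnt (Bad E L m) 1 (N + 1) ≤
      ∑ x ∈ (Finset.Ico 1 (N + 1)).filter (· ∈ E), L * cnt E x (x + (H + L)) := by
  have h1 : ∀ m ∈ Finset.Ico 1 (H + 1), cnt (Bad E L m) 1 (N + 1) =
      ∑ x ∈ (Finset.Ico 1 (N + 1)).filter (· ∈ E), if x ∈ Bad E L m then 1 else 0 := by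
    intro m _
    rw [cnt, Finset.card_filter, Finset.sum_filter]
    refine Finset.sum_congr rfl fun x _ => ?_
    by_cases hx : x ∈ E
    · simp [hx]
    · have : x ∉ Bad E L m := fun h => hx h.1
      simp [hx, this]
  rw [Finset.sum_congr rfl h1, Finset.sum_comm]
  refine Finset.sum_le_sum fun x hx => ?_
  -- number of `m` with `x` bad
  have h2 : ∀ m ∈ Finset.Ico 1 (H + 1), (if x ∈ Bad E L m then 1 else 0) ≤
      ∑ y ∈ (Finset.Ico x (x + (H + L))).filter (· ∈ E), if (m ≤ y - x ∧ y - x < m + L) then 1 else 0 := by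
    intro m hm
    rw [Finset.mem_Ico] at hm
    split_ifs with hb
    · obtain ⟨_, d, hd1, hd2, hd3⟩ := hb
      have hmem : x + d ∈ (Finset.Ico x (x + (H + L))).filter (· ∈ E) := by
        rw [Finset.mem_filter, Finset.mem_Ico]
        exact ⟨⟨by omega, by omega⟩, hd3⟩
      calc 1 = (if (m ≤ (x + d) - x ∧ (x + d) - x < m + L) then 1 else 0) := by
            rw [if_pos]; omega
        _ ≤ _ := Finset.single_le_sum (f := fun y => if (m ≤ y - x ∧ y - x < m + L) then 1 else 0)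
            (fun _ _ => Nat.zero_le _) hmem
    · exact Nat.zero_le _
  refine (Finset.sum_le_sum h2).trans ?_
  rw [Finset.sum_comm, cnt, mul_comm, ← smul_eq_mul, ← Finset.sum_const]
  refine Finset.sum_le_sum fun y _ => ?_
  rw [← Finset.card_filter]
  calc ((Finset.Ico 1 (H + 1)).filter fun m => m ≤ y - x ∧ y - x < m + L).card
      ≤ (Finset.Ico (y - x + 1 - L) (y - x + 1)).card := by
        apply Finset.card_le_card
        intro m hm
        rw [Finset.mem_filter, Finset.mem_Ico] at hm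
        rw [Finset.mem_Ico]
        omega
    _ ≤ L := by rw [Nat.card_Ico]; omega

/-- number of shifts meeting `E` -/
theorem count_meet (E : Set ℕ) (T H : ℕ) :
    ((Finset.Ico 1 (H + 1)).filter fun m => ∃ y, m ≤ y ∧ y < m + T ∧ y ∈ E).card ≤
      T * cnt E 1 (H + 1 + T) := by
  have h1 : ((Finset.Ico 1 (H + 1)).filter fun m => ∃ y, m ≤ y ∧ y < m + T ∧ y ∈ E) ⊆
      ((Finset.Ico 1 (H + 1 + T)).filter (· ∈ E)).biUnion fun y => Finset.Ico (y + 1 - T) (y + 1) := by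
    intro m hm
    rw [Finset.mem_filter, Finset.mem_Ico] at hm
    obtain ⟨hm1, y, hy1, hy2, hy3⟩ := hm
    rw [Finset.mem_biUnion]
    refine ⟨y, ?_, ?_⟩
    · rw [Finset.mem_filter, Finset.mem_Ico]
      exact ⟨⟨by omega, by omega⟩, hy3⟩
    · rw [Finset.mem_Ico]; omega
  refine (Finset.card_le_card h1).trans (Finset.card_biUnion_le.trans ?_)
  rw [cnt, mul_comm, ← smul_eq_mul, ← Finset.sum_const]
  refine Finset.sum_le_sum fun y _ => ?_
  rw [Nat.card_Ico]; omega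

/-- For every `L`, `T`, `δ` there is a bound `H` such that for every `N` some shift `m ≤ H` works. -/
theorem exists_shift {E : Set ℕ} (hE : UZ E) (L T : ℕ) (δ : ℝ) (hδ : 0 < δ) :
    ∃ H : ℕ, ∀ N : ℕ, ∃ m, 1 ≤ m ∧ m ≤ H ∧ (∀ y, m ≤ y → y < m + T → y ∉ E) ∧
      (cnt (Bad E L m) 1 (N + 1) : ℝ) ≤ δ * cnt E 1 (N + 1) := by
  -- constants
  obtain ⟨W1, hW1⟩ := hE (δ / (8 * (L + 1))) (by positivity)
  obtain ⟨W2, hW2⟩ := hE (1 / (8 * (T + 1))) (by positivity)
  set H : ℕ := W1 + W2 + L + T + 1 with hH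
  refine ⟨H, fun N => ?_⟩
  by_contra hcon
  push Not at hcon
  set e : ℝ := ((cnt E 1 (N + 1) : ℕ) : ℝ) with he
  -- every shift in `[1, H]` is bad for one of the two reasons
  set G : Finset ℕ := (Finset.Ico 1 (H + 1)).filter fun m => ∃ y, m ≤ y ∧ y < m + T ∧ y ∈ E with hG
  have hG1 : (G.card : ℝ) ≤ H / 4 := by
    have h1 := count_meet E T H
    have h2 := hW2 (H + T) (by omega) 1
    have h3 : (G.card : ℝ) ≤ T * cnt E 1 (1 + (H + T)) := by
      have : H + 1 + T = 1 + (H + T) := by ring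
      rw [this] at h1
      exact_mod_cast h1
    have h4 : (T : ℝ) * cnt E 1 (1 + (H + T)) ≤ T * (1 / (8 * (T + 1)) * ((H + T : ℕ) : ℝ)) := by
      gcongr
    have h5 : (T : ℝ) * (1 / (8 * (T + 1)) * ((H + T : ℕ) : ℝ)) ≤ H / 4 := by
      have hT : (T : ℝ) ≤ H := by exact_mod_cast (by omega : T ≤ H)
      have h6 : (T : ℝ) * (1 / (8 * (T + 1)) * ((H + T : ℕ) : ℝ)) =
          (T / (T + 1)) * (((H + T : ℕ) : ℝ) / 8) := by
        field_simp
      rw [h6]
      have h7 : (T : ℝ) / (T + 1) ≤ 1 := by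
        rw [div_le_one (by positivity)]; linarith
      have h8 : (((H + T : ℕ) : ℝ) / 8) ≤ H / 4 := by
        push_cast; linarith
      calc (T : ℝ) / (T + 1) * (((H + T : ℕ) : ℝ) / 8) ≤ 1 * (((H + T : ℕ) : ℝ) / 8) := by
            gcongr
        _ ≤ H / 4 := by rw [one_mul]; exact h8
    linarith
  have hS : (∑ m ∈ Finset.Ico 1 (H + 1), (cnt (Bad E L m) 1 (N + 1) : ℝ)) ≤ δ / 4 * H * e := by
    have h1 := sum_bad E L H N
    have h2 : (∑ m ∈ Finset.Ico 1 (H + 1), (cnt (Bad E L m) 1 (N + 1) : ℝ)) ≤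
        ∑ x ∈ (Finset.Ico 1 (N + 1)).filter (· ∈ E), (L : ℝ) * cnt E x (x + (H + L)) := by
      exact_mod_cast h1
    refine h2.trans ?_
    have h3 : ∀ x ∈ (Finset.Ico 1 (N + 1)).filter (· ∈ E), (L : ℝ) * cnt E x (x + (H + L)) ≤
        δ / 4 * H := by
      intro x _
      have h4 := hW1 (H + L) (by omega) x
      have hL : (L : ℝ) ≤ H := by exact_mod_cast (by omega : L ≤ H)
      calc (L : ℝ) * cnt E x (x + (H + L)) ≤ L * (δ / (8 * (L + 1)) * ((H + L : ℕ) : ℝ)) := by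
            gcongr
        _ = (L / (L + 1)) * (δ / 8 * ((H + L : ℕ) : ℝ)) := by field_simp
        _ ≤ 1 * (δ / 8 * ((H + L : ℕ) : ℝ)) := by
            gcongr
            rw [div_le_one (by positivity)]; linarith
        _ ≤ δ / 4 * H := by
            push_cast
            nlinarith
    calc _ ≤ ∑ x ∈ (Finset.Ico 1 (N + 1)).filter (· ∈ E), δ / 4 * H := Finset.sum_le_sum h3
      _ = δ / 4 * H * e := by
        rw [Finset.sum_const, nsmul_eq_mul, he, cnt]
        ring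
  -- lower bound for the sum
  have hlow : ∀ m ∈ (Finset.Ico 1 (H + 1)) \ G, δ * e < (cnt (Bad E L m) 1 (N + 1) : ℝ) := by
    intro m hm
    rw [Finset.mem_sdiff, Finset.mem_Ico] at hm
    apply hcon m hm.1.1 (by omega)
    intro y h1 h2 h3
    exact hm.2 (by rw [hG, Finset.mem_filter, Finset.mem_Ico]; exact ⟨hm.1, y, h1, h2, h3⟩)
  have hcard : (3 / 4 : ℝ) * H ≤ (((Finset.Ico 1 (H + 1)) \ G).card : ℝ) := by
    have h1 : G ⊆ Finset.Ico 1 (H + 1) := Finset.filter_subset _ _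
    have h2 := Finset.card_sdiff_add_card_eq_card h1
    rw [Nat.card_Ico] at h2
    have h3 : ((((Finset.Ico 1 (H + 1)) \ G).card : ℝ)) + G.card = H := by
      have : ((Finset.Ico 1 (H + 1)) \ G).card + G.card = H := by omega
      exact_mod_cast this
    linarith
  have hH0 : (0 : ℝ) < H := by
    have : 0 < H := by omega
    exact_mod_cast this
  have hne : ((Finset.Ico 1 (H + 1)) \ G).Nonempty := by
    rw [← Finset.card_pos]
    have : (0 : ℝ) < (((Finset.Ico 1 (H + 1)) \ G).card : ℝ) := by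
      refine lt_of_lt_of_le ?_ hcard
      positivity
    exact_mod_cast this
  have he0 : 0 ≤ e := by rw [he]; positivity
  have h1 : (((Finset.Ico 1 (H + 1)) \ G).card : ℝ) * (δ * e) <
      ∑ m ∈ (Finset.Ico 1 (H + 1)) \ G, (cnt (Bad E L m) 1 (N + 1) : ℝ) := by
    rw [← nsmul_eq_mul, ← Finset.sum_const]
    exact Finset.sum_lt_sum_of_nonempty hne hlow
  have h2 : ∑ m ∈ (Finset.Ico 1 (H + 1)) \ G, (cnt (Bad E L m) 1 (N + 1) : ℝ) ≤
      ∑ m ∈ Finset.Ico 1 (H + 1), (cnt (Bad E L m) 1 (N + 1) : ℝ) :=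
    Finset.sum_le_sum_of_subset_of_nonneg Finset.sdiff_subset (fun _ _ _ => by positivity)
  have h3 : (3 / 4 : ℝ) * H * (δ * e) ≤ (((Finset.Ico 1 (H + 1)) \ G).card : ℝ) * (δ * e) := by
    gcongr
  have h4 : 0 ≤ H * (δ * e) := by positivity
  nlinarith

end Pool.Agent.Q19.Sparse
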