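import Mathlib
import Pool.Agent.Q19.Sparse.Core

set_option autoImplicit false

open Finset Filter

open scoped Classical

namespace Pool.Agent.Q19.Sparse

theorem step {E : Set ℕ} (hE : UZ E) (L : ℕ) (δ : ℝ) (hδ : 0 < δ) (S : Set ℕ) (hS : S.Infinite)
    (T : ℕ) : ∃ (S' : Set ℕ) (N m : ℕ), S' ⊆ S ∧ S'.Infinite ∧ N ∈ S' ∧ T < N ∧ 1 ≤ m ∧
      (∀ y, m ≤ y → y < m + (L + T) → y ∉ E) ∧
      ∀ N' ∈ S', (cnt (Bad E L m) 1 (N' + 1) : ℝ) ≤ δ * cnt E 1 (N' + 1) := by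
  obtain ⟨H, hH⟩ := exists_shift hE L (L + T) δ hδ
  let Sm : ℕ → Set ℕ := fun m => {N | N ∈ S ∧ 1 ≤ m ∧ (∀ y, m ≤ y → y < m + (L + T) → y ∉ E) ∧
      (cnt (Bad E L m) 1 (N + 1) : ℝ) ≤ δ * cnt E 1 (N + 1)}
  have hcov : S ⊆ ⋃ m ∈ Set.Iic H, Sm m := by
    intro N hN
    obtain ⟨m, h1, h2, h3, h4⟩ := hH N
    rw [Set.mem_iUnion₂]
    exact ⟨m, h2, hN, h1, h3, h4⟩
  have hex : ∃ m, (Sm m).Infinite := by
    by_contra hcon
    push Not at hcon
    apply hS
    refine ((Set.finite_Iic H).biUnion fun m _ => ?_).subset hcov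
    exact hcon m
  obtain ⟨m, hm⟩ := hex
  obtain ⟨N, hN, hTN⟩ := hm.exists_gt T
  exact ⟨Sm m, N, m, fun _ h => h.1, hm, hN, hTN, hN.2.1, hN.2.2.1, fun N' hN' => hN'.2.2.2⟩

/-- The main lemma: in a set of Banach density zero there is a subset of relative upper density close
to one whose difference set misses arbitrarily long intervals. -/
theorem core {E : Set ℕ} (hE : UZ E) (ε : ℝ) (hε : 0 < ε) :
    ∃ A : Set ℕ, A ⊆ E ∧
      (∀ L : ℕ, ∃ m, 1 ≤ m ∧ ∀ a ∈ A, ∀ d, m ≤ d → d < m + L → a + d ∉ A) ∧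
      ∀ N₀ : ℕ, ∃ N, N₀ ≤ N ∧ (1 - ε) * (cnt E 1 (N + 1) : ℝ) ≤ cnt A 1 (N + 1) := by
  have hst := fun (L : ℕ) (p : {p : Set ℕ × ℕ // p.1.Infinite}) =>
    step hE L (ε / 2 ^ (L + 1)) (by positivity) p.1.1 p.2 p.1.2
  choose S' N' m' h1 h2 h3 h4 h5 h6 h7 using hst
  let st : ℕ → {p : Set ℕ × ℕ // p.1.Infinite} := fun n =>
    Nat.rec ⟨(Set.univ, 0), Set.infinite_univ⟩ (fun L p => ⟨(S' L p, N' L p), h2 L p⟩) n
  have hst1 : ∀ L, (st (L + 1)).1.1 = S' L (st L) := fun L => rfl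
  have hst2 : ∀ L, (st (L + 1)).1.2 = N' L (st L) := fun L => rfl
  set S : ℕ → Set ℕ := fun L => (st L).1.1 with hSdef
  set N : ℕ → ℕ := fun L => (st L).1.2 with hNdef
  set m : ℕ → ℕ := fun L => m' L (st L) with hmdef
  have hSanti : Antitone S := antitone_nat_of_succ_le fun L => by
    change (st (L + 1)).1.1 ⊆ (st L).1.1
    rw [hst1]; exact h1 L (st L)
  have hNmono : StrictMono N := strictMono_nat_of_lt_succ fun L => by
    change (st L).1.2 < (st (L + 1)).1.2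
    rw [hst2]; exact h4 L (st L)
  have hNS : ∀ i, 1 ≤ i → N i ∈ S i := by
    intro i hi
    obtain ⟨j, rfl⟩ := Nat.exists_eq_succ_of_ne_zero (by omega : i ≠ 0)
    change (st (j + 1)).1.2 ∈ (st (j + 1)).1.1
    rw [hst1, hst2]; exact h3 j (st j)
  have hgap : ∀ L y, m L ≤ y → y < m L + (L + N L) → y ∉ E := fun L y => h6 L (st L) y
  have hbd : ∀ L i, L < i → (cnt (Bad E L (m L)) 1 (N i + 1) : ℝ) ≤
      ε / 2 ^ (L + 1) * cnt E 1 (N i + 1) := by
    intro L i hi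
    apply h7 L (st L)
    have h8 : N i ∈ S (L + 1) := hSanti (by omega : L + 1 ≤ i) (hNS i (by omega))
    change N i ∈ (st (L + 1)).1.1 at h8
    rwa [hst1] at h8
  obtain ⟨A, hA⟩ : ∃ A : Set ℕ, ∀ x, x ∈ A ↔ x ∈ E ∧ ∀ L, x ∉ Bad E L (m L) :=
    ⟨{x | x ∈ E ∧ ∀ L, x ∉ Bad E L (m L)}, fun x => Iff.rfl⟩
  refine ⟨A, fun x hx => ((hA x).1 hx).1, ?_, ?_⟩
  · intro L
    refine ⟨m L, h5 L (st L), ?_⟩
    intro a haA d hd1 hd2 hb
    obtain ⟨ha, hab⟩ := (hA a).1 haA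
    exact hab L ⟨ha, d, hd1, hd2, ((hA _).1 hb).1⟩
  · intro N₀
    refine ⟨N (N₀ + 1), (by omega : N₀ ≤ N₀ + 1).trans (hNmono.le_apply), ?_⟩
    set i := N₀ + 1 with hi
    have hsub : (Finset.Ico 1 (N i + 1)).filter (· ∈ E) ⊆
        (Finset.Ico 1 (N i + 1)).filter (· ∈ A) ∪
          (Finset.range i).biUnion fun L => (Finset.Ico 1 (N i + 1)).filter (· ∈ Bad E L (m L)) := by
      intro x hx
      rw [Finset.mem_filter, Finset.mem_Ico] at hx
      rw [Finset.mem_union]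
      by_cases hxA : ∀ L, x ∉ Bad E L (m L)
      · left
        rw [Finset.mem_filter, Finset.mem_Ico]
        exact ⟨hx.1, (hA x).2 ⟨hx.2, hxA⟩⟩
      · right
        push Not at hxA
        obtain ⟨L, hL⟩ := hxA
        rw [Finset.mem_biUnion]
        have hLi : L < i := by
          by_contra hLi
          obtain ⟨_, d, hd1, hd2, hd3⟩ := hL
          refine hgap L (x + d) (by omega) ?_ hd3
          have : N i ≤ N L := hNmono.monotone (by omega : i ≤ L)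
          omega
        exact ⟨L, Finset.mem_range.2 hLi, by
          rw [Finset.mem_filter, Finset.mem_Ico]; exact ⟨hx.1, hL⟩⟩
    have hcard := (Finset.card_le_card hsub).trans (Finset.card_union_le _ _)
    have hcard2 : (cnt E 1 (N i + 1) : ℝ) ≤
        cnt A 1 (N i + 1) +
          ∑ L ∈ Finset.range i, (cnt (Bad E L (m L)) 1 (N i + 1) : ℝ) := by
      have h9 := hcard.trans (Nat.add_le_add_left (Finset.card_biUnion_le) _)
      unfold cnt
      exact_mod_cast h9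
    have hsum : ∑ L ∈ Finset.range i, (cnt (Bad E L (m L)) 1 (N i + 1) : ℝ) ≤
        ε * cnt E 1 (N i + 1) := by
      calc _ ≤ ∑ L ∈ Finset.range i, ε / 2 ^ (L + 1) * (cnt E 1 (N i + 1) : ℝ) :=
            Finset.sum_le_sum fun L hL => hbd L i (Finset.mem_range.1 hL)
        _ = (∑ L ∈ Finset.range i, (1 / 2 : ℝ) ^ L) * (ε / 2) * cnt E 1 (N i + 1) := by
            rw [Finset.sum_mul, Finset.sum_mul]
            refine Finset.sum_congr rfl fun L _ => ?_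
            rw [pow_succ, one_div, inv_pow]
            field_simp
        _ ≤ 2 * (ε / 2) * cnt E 1 (N i + 1) := by
            gcongr
            exact sum_geometric_two_le i
        _ = ε * cnt E 1 (N i + 1) := by ring
    linarith

end Pool.Agent.Q19.Sparse
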