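import Mathlib
import Pool.Agent.Q19.Sparse.Main

set_option autoImplicit false

open Finset Filter

open scoped Classical

namespace Pool.Agent.Q19.Sparse

theorem ncard_Ico (E : Set ℕ) (a b : ℕ) : (E ∩ Set.Ico a b).ncard = cnt E a b := by
  rw [cnt, ← Set.ncard_coe_finset]
  congr 1
  ext x
  simp [and_comm]

theorem ncard_Icc (E : Set ℕ) (N : ℕ) : (E ∩ Set.Icc 1 N).ncard = cnt E 1 (N + 1) := by
  rw [← ncard_Ico]
  congr 2
  ext x
  simp only [Set.mem_Icc, Set.mem_Ico]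
  omega

theorem cnt_le (E : Set ℕ) (a b : ℕ) : cnt E a b ≤ b - a := by
  unfold cnt
  refine (Finset.card_filter_le _ _).trans ?_
  rw [Nat.card_Ico]

/-- from the first form of the Banach density -/
theorem uz_of_limsup {E : Set ℕ}
    (h : limsup (fun p : ℕ × ℕ => ((E ∩ Set.Ico p.1 p.2).ncard : ℝ) / ((p.2 - p.1 : ℕ) : ℝ))
      (comap (fun p : ℕ × ℕ => p.2 - p.1) atTop) = 0) : UZ E := by
  intro η hη
  have hb : IsBoundedUnder (· ≤ ·) (comap (fun p : ℕ × ℕ => p.2 - p.1) atTop)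
      (fun p : ℕ × ℕ => ((E ∩ Set.Ico p.1 p.2).ncard : ℝ) / ((p.2 - p.1 : ℕ) : ℝ)) := by
    refine isBoundedUnder_of ⟨1, fun p => ?_⟩
    rw [ncard_Ico]
    apply div_le_one_of_le₀ _ (by positivity)
    exact_mod_cast cnt_le E p.1 p.2
  have h1 := eventually_lt_of_limsup_lt (h ▸ hη : limsup _ _ < η) hb
  rw [eventually_comap, eventually_atTop] at h1
  obtain ⟨W, hW⟩ := h1
  refine ⟨max W 1, fun V hV M => ?_⟩
  have h2 := hW V (le_trans (le_max_left _ _) hV) (M, M + V) (by simp)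
  simp only [Nat.add_sub_cancel_left] at h2
  rw [ncard_Ico] at h2
  have hV0 : (0 : ℝ) < V := by
    have : 1 ≤ V := le_trans (le_max_right _ _) hV
    exact_mod_cast this
  rw [div_lt_iff₀ hV0] at h2
  exact h2.le

/-- from the second form of the Banach density -/
theorem uz_of_tendsto {E : Set ℕ}
    (h : Tendsto (fun N : ℕ => ⨆ M : ℕ, ((E ∩ Set.Ico M (M + N)).ncard : ℝ) / N) atTop (nhds 0)) :
    UZ E := by
  intro η hη
  have h1 := (tendsto_order.1 h).2 η hη
  rw [eventually_atTop] at h1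
  obtain ⟨W, hW⟩ := h1
  refine ⟨max W 1, fun V hV M => ?_⟩
  have h2 := hW V (le_trans (le_max_left _ _) hV)
  have hV0 : (0 : ℝ) < V := by
    have : 1 ≤ V := le_trans (le_max_right _ _) hV
    exact_mod_cast this
  have hbdd : BddAbove (Set.range fun M : ℕ => ((E ∩ Set.Ico M (M + V)).ncard : ℝ) / V) := by
    refine ⟨1, ?_⟩
    rintro _ ⟨M, rfl⟩
    change ((E ∩ Set.Ico M (M + V)).ncard : ℝ) / V ≤ 1
    rw [ncard_Ico]
    apply div_le_one_of_le₀ _ (by positivity)
    have := cnt_le E M (M + V)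
    have h3 : cnt E M (M + V) ≤ V := by omega
    exact_mod_cast h3
  have h3 := (le_ciSup hbdd M).trans_lt h2
  change ((E ∩ Set.Ico M (M + V)).ncard : ℝ) / V < η at h3
  rw [ncard_Ico, div_lt_iff₀ hV0] at h3
  exact h3.le

/-- relative upper density -/
theorem rel_bound {E A : Set ℕ} (hAE : A ⊆ E) (hinf : E.Infinite) {ε : ℝ}
    (h : ∀ N₀ : ℕ, ∃ N, N₀ ≤ N ∧ (1 - ε) * (cnt E 1 (N + 1) : ℝ) ≤ cnt A 1 (N + 1)) :
    1 - ε ≤ limsup (fun N : ℕ => ((A ∩ Set.Icc 1 N).ncard : ℝ) / ((E ∩ Set.Icc 1 N).ncard : ℝ))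
      atTop := by
  refine le_limsup_of_frequently_le ?_ ?_
  · rw [frequently_atTop]
    intro N₀
    obtain ⟨e, he, he1⟩ := hinf.exists_gt 0
    obtain ⟨N, hN, hN1⟩ := h (max N₀ e)
    refine ⟨N, le_trans (le_max_left _ _) hN, ?_⟩
    rw [ncard_Icc, ncard_Icc]
    have hpos : 0 < cnt E 1 (N + 1) := by
      unfold cnt
      rw [Finset.card_pos]
      refine ⟨e, ?_⟩
      rw [Finset.mem_filter, Finset.mem_Ico]
      have := le_trans (le_max_right N₀ e) hN
      exact ⟨⟨by omega, by omega⟩, he⟩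
    rw [le_div_iff₀ (by exact_mod_cast hpos)]
    exact hN1
  · refine isBoundedUnder_of ⟨1, fun N => ?_⟩
    rw [ncard_Icc, ncard_Icc]
    apply div_le_one_of_le₀ _ (by positivity)
    exact_mod_cast cnt_mono_set hAE 1 (N + 1)

/-- a thick set contains the differences of a sequence -/
theorem exists_seq {R : Set ℕ} (hR : ∀ L : ℕ, ∃ m, 1 ≤ m ∧ ∀ d, m ≤ d → d < m + L → d ∈ R) :
    ∃ t : ℕ → ℕ, StrictMono t ∧ ∀ i j, i < j → t j - t i ∈ R := by
  choose m hm1 hm2 using hR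
  let t : ℕ → ℕ := fun n => Nat.rec 0 (fun _ T => m (T + 1) + T) n
  have ht : ∀ n, t (n + 1) = m (t n + 1) + t n := fun n => rfl
  have hmono : StrictMono t := strictMono_nat_of_lt_succ fun n => by
    rw [ht]; have := hm1 (t n + 1); omega
  refine ⟨t, hmono, ?_⟩
  intro i j hij
  obtain ⟨k, rfl⟩ := Nat.exists_eq_succ_of_ne_zero (by omega : j ≠ 0)
  have h1 : t i ≤ t k := hmono.monotone (by omega : i ≤ k)
  change t (k + 1) - t i ∈ R
  rw [ht]
  apply hm2 (t k + 1) <;> omega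

/-- a thick set meets the difference set of every set of positive upper density -/
theorem thick_intersective {R : Set ℕ}
    (hR : ∀ L : ℕ, ∃ m, 1 ≤ m ∧ ∀ d, m ≤ d → d < m + L → d ∈ R) {A : Set ℕ}
    (hA : 0 < limsup (fun N : ℕ => ((A ∩ Set.Icc 1 N).ncard : ℝ) /
      (({n | 1 ≤ n} ∩ Set.Icc 1 N : Set ℕ).ncard : ℝ)) atTop) :
    ∃ a ∈ A, ∃ b ∈ A, ∃ r ∈ R, (r : ℤ) = a - b := by
  set δ := limsup (fun N : ℕ => ((A ∩ Set.Icc 1 N).ncard : ℝ) /
      (({n | 1 ≤ n} ∩ Set.Icc 1 N : Set ℕ).ncard : ℝ)) atTop with hδ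
  obtain ⟨t, ht1, ht2⟩ := exists_seq hR
  by_contra hcon
  push Not at hcon
  obtain ⟨k, hk⟩ := exists_nat_gt (4 / δ)
  have hfreq : ∃ᶠ N in atTop, δ / 2 < ((A ∩ Set.Icc 1 N).ncard : ℝ) /
      (({n | 1 ≤ n} ∩ Set.Icc 1 N : Set ℕ).ncard : ℝ) := by
    apply frequently_lt_of_lt_limsup
    · exact isCoboundedUnder_le_of_le atTop (x := 0) fun N => by positivity
    · rw [← hδ]; linarith
  rw [frequently_atTop] at hfreq
  obtain ⟨N, hN, hN2⟩ := hfreq (t k + 1)
  have hcard : ({n | 1 ≤ n} ∩ Set.Icc 1 N : Set ℕ).ncard = N := by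
    have : ({n | 1 ≤ n} ∩ Set.Icc 1 N : Set ℕ) = Set.Icc 1 N := by
      ext x; simp
    rw [this, Set.ncard_eq_toFinset_card', Set.toFinset_Icc, Nat.card_Icc]
    omega
  rw [hcard, ncard_Icc] at hN2
  have hN0 : (0 : ℝ) < N := by
    have : 0 < N := by omega
    exact_mod_cast this
  rw [lt_div_iff₀ hN0] at hN2
  -- counting
  have hinj : (Finset.range k ×ˢ (Finset.Ico 1 (N + 1)).filter (· ∈ A)).card ≤
      (Finset.Ico 1 (N + t k + 1)).card := by
    refine Finset.card_le_card_of_injOn (fun p => p.2 + t p.1) ?_ ?_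
    · rintro ⟨i, a⟩ hp
      simp only [Finset.coe_product, Finset.coe_filter, Set.mem_prod, Finset.mem_coe,
        Finset.mem_range, Finset.mem_Ico, Set.mem_ofPred_eq, Finset.coe_range, Set.mem_Iio] at hp
      have h1 : t i ≤ t k := ht1.monotone hp.1.le
      simp only [Finset.coe_Ico, Set.mem_Ico]
      omega
    · rintro ⟨i, a⟩ hp ⟨j, b⟩ hq hpq
      simp only [Finset.coe_product, Finset.coe_filter, Set.mem_prod, Finset.mem_coe,
        Finset.mem_range, Finset.mem_Ico, Set.mem_ofPred_eq, Finset.coe_range, Set.mem_Iio] at hp hq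
      simp only at hpq
      rcases lt_trichotomy i j with h | h | h
      · exfalso
        have h1 : t i < t j := ht1 h
        exact hcon a hp.2.2 b hq.2.2 _ (ht2 i j h) (by omega)
      · subst h
        simp only [Prod.mk.injEq, true_and]
        omega
      · exfalso
        have h1 : t j < t i := ht1 h
        exact hcon b hq.2.2 a hp.2.2 _ (ht2 j i h) (by omega)
  rw [Finset.card_product, Finset.card_range, Nat.card_Ico] at hinj
  have h3 : (k : ℝ) * cnt A 1 (N + 1) ≤ N + t k := by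
    have : k * cnt A 1 (N + 1) ≤ N + t k := by
      unfold cnt; omega
    exact_mod_cast this
  have h4 : (t k : ℝ) < N := by
    have : t k < N := by omega
    exact_mod_cast this
  rw [div_lt_iff₀ hA] at hk
  have h5 : (k : ℝ) * (δ / 2 * N) ≤ k * cnt A 1 (N + 1) := by
    gcongr
  nlinarith

end Pool.Agent.Q19.Sparse
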